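import Pool.Agent.Helper2.Mah.AF3
import Pool.Agent.Helper73.M3.Spec

/-!
# Part B of the sharp Mahler inequality in `ℝ³`: the volume of the twin body
-/

set_option autoImplicit false

open MeasureTheory Set Module
open scoped Pointwise NNReal ENNReal

noncomputable section

namespace Helper48.M3

open Pool.Agent.TH650.MV Pool.Agent.Helper2.Mah

abbrev E3 := Fin 3 → ℝ

/-- a compact convex set with interior points as a convex body -/
def bd (K : Set E3) (hc : IsCompact K) (hv : Convex ℝ K) (hne : K.Nonempty) : ConvexBody E3 :=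
  ⟨K, hv, hc, hne⟩

/-- the reflected body -/
def nb (K : ConvexBody E3) : ConvexBody E3 :=
  img ((ContinuousLinearEquiv.neg ℝ (M := E3) : E3 ≃L[ℝ] E3) : E3 →L[ℝ] E3) K

lemma mem_nb (K : ConvexBody E3) (x : E3) : x ∈ nb K ↔ -x ∈ K := by
  show x ∈ (fun y : E3 => -y) '' (K : Set E3) ↔ _
  constructor
  · rintro ⟨y, hy, rfl⟩
    simpa using hy
  · intro h
    exact ⟨-x, h, by simp⟩

lemma coe_nb (K : ConvexBody E3) : (nb K : Set E3) = -(K : Set E3) := by
  ext x
  exact mem_nb K x

lemma nb_nb (K : ConvexBody E3) : nb (nb K) = K := by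
  apply SetLike.ext
  intro x
  rw [mem_nb, mem_nb, neg_neg]

lemma map_neg_vol : (volume : Measure E3).map (ContinuousLinearEquiv.neg ℝ (M := E3) : E3 ≃L[ℝ] E3) = volume := by
  have h : (⇑(ContinuousLinearEquiv.neg ℝ (M := E3) : E3 ≃L[ℝ] E3)) = Neg.neg := by
    funext x; simp
  rw [h]
  exact Measure.map_neg_eq_self volume

lemma T_nb (X Y Z : ConvexBody E3) :
    T volume (nb X) (nb Y) (nb Z) = T volume X Y Z := by
  unfold T
  have h := V_equiv (volume : Measure E3) (ContinuousLinearEquiv.neg ℝ (M := E3)) (X ::ₘ Y ::ₘ Z ::ₘ 0)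
  rw [map_neg_vol] at h
  simp only [Multiset.map_cons, Multiset.map_zero] at h
  exact h

lemma h3 : finrank ℝ E3 = 3 := by simp

lemma T_sing (x : E3) (Y Z : ConvexBody E3) : T volume (sing x) Y Z = 0 :=
  V_sing volume x _ (by simp)

/-- the mixed volume `T(-K,K,K)` -/
lemma mixed_le (K : ConvexBody E3) (b : ℝ≥0) (a : E3) (h : ∀ x ∈ K, ∃ z ∈ K, -x = (b : ℝ) • z + a) :
    T volume (nb K) K K ≤ b * vl volume K := by
  have hle : nb K ≤ b • K + sing a := by
    intro x hx
    rw [mem_nb] at hx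
    obtain ⟨z, hz, hz'⟩ := h (-x) hx
    rw [neg_neg] at hz'
    rw [hz']
    rw [← SetLike.mem_coe, ConvexBody.coe_add]
    refine Set.mem_add.mpr ⟨(b : ℝ) • z, ?_, a, rfl, rfl⟩
    rw [ConvexBody.coe_smul']
    exact Set.smul_mem_smul_set hz
  calc T volume (nb K) K K ≤ T volume (b • K + sing a) K K := T_mono1 volume h3 hle _ _
    _ = b * vl volume K := by
        rw [T_add1 volume h3, T_smul1 volume h3, T_sing, add_zero, vl3 volume h3]

/-- volume of the slices -/
lemma vl_slice (K : ConvexBody E3) (p q : ℝ≥0) :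
    vl volume (p • K + q • nb K) = (p : ℝ) ^ 3 * vl volume K + (q : ℝ) ^ 3 * vl volume K +
      3 * (p * q * (p + q)) * T volume (nb K) K K := by
  have h1 : T volume (nb K) (nb K) K = T volume (nb K) K K := by
    have h := T_nb (nb K) K K
    rw [nb_nb, T_13 volume K (nb K) (nb K)] at h
    exact h
  have h2 : T volume (nb K) (nb K) (nb K) = T volume K K K := T_nb K K K
  rw [vl3 volume h3, vl3 volume h3]
  simp only [T_add1 volume h3, T_add2 volume h3, T_add3 volume h3, T_smul1 volume h3,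
    T_smul2 volume h3, T_smul3 volume h3]
  have e1 : T volume K K (nb K) = T volume (nb K) K K := T_13 _ _ _ _
  have e2 : T volume K (nb K) K = T volume (nb K) K K := T_12 _ _ _ _
  have e3 : T volume K (nb K) (nb K) = T volume (nb K) K K := by rw [T_13, h1]
  have e4 : T volume (nb K) K (nb K) = T volume (nb K) K K := by rw [T_23, h1]
  rw [e1, e2, e3, e4, h1, h2]
  ring

/-- Fubini over the height -/
lemma lintegral_cons' (F : (Fin 4 → ℝ) → ℝ≥0∞) (hF : Measurable F) :
    ∫⁻ v, F v = ∫⁻ s : ℝ, ∫⁻ y : Fin 3 → ℝ, F (Fin.cons s y) := by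
  rw [Helper73.Twin.lintegral_cons F hF]
  have hm : Measurable fun p : (Fin 3 → ℝ) × ℝ => F (Fin.cons p.2 p.1) :=
    hF.comp (Helper73.Twin.cons_cont.measurable.comp measurable_swap)
  exact lintegral_lintegral_swap hm.aemeasurable

/-- the slices of the twin body -/
lemma slice_eq (K : ConvexBody E3) (s : ℝ) (hs : s ∈ Icc (-1 : ℝ) 1) :
    {y : E3 | (Fin.cons s y : Fin 4 → ℝ) ∈ Helper73.Twin.twin (K : Set E3)} =
      ((((1 + s) / 2).toNNReal • K + ((1 - s) / 2).toNNReal • nb K : ConvexBody E3) : Set E3) := by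
  have h1 : 0 ≤ (1 + s) / 2 := by have := hs.1; linarith
  have h2 : 0 ≤ (1 - s) / 2 := by have := hs.2; linarith
  ext y
  rw [Set.mem_setOf_eq, Helper73.Twin.mem_twin K.convex K.nonempty, ConvexBody.coe_add,
    ConvexBody.coe_smul', ConvexBody.coe_smul', Set.mem_add]
  constructor
  · rintro ⟨t, ht, a, ha, b, hb, hv⟩
    obtain ⟨e1, e2⟩ := Fin.cons_inj.1 hv
    have ht' : t = (1 + s) / 2 := by linarith
    have ht'' : 1 - t = (1 - s) / 2 := by linarith
    refine ⟨t • a, ?_, (1 - t) • (-b), ?_, ?_⟩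
    · rw [ht']
      refine Set.mem_smul_set.2 ⟨a, ha, ?_⟩
      show (((1 + s) / 2).toNNReal : ℝ) • a = _
      rw [Real.coe_toNNReal _ h1]
    · rw [ht'']
      refine Set.mem_smul_set.2 ⟨-b, ?_, ?_⟩
      · rw [coe_nb, Set.neg_mem_neg]
        exact hb
      · show (((1 - s) / 2).toNNReal : ℝ) • (-b) = _
        rw [Real.coe_toNNReal _ h2]
    · rw [e2, smul_neg, ← sub_eq_add_neg]
  · rintro ⟨_, ⟨a, ha, rfl⟩, _, ⟨b, hb, rfl⟩, rfl⟩
    rw [coe_nb] at hb
    refine ⟨(1 + s) / 2, ⟨h1, by linarith⟩, a, ha, -b, hb, ?_⟩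
    congr 1
    · ring
    · show (((1 + s) / 2).toNNReal : ℝ) • a + (((1 - s) / 2).toNNReal : ℝ) • b = _
      rw [Real.coe_toNNReal _ h1, Real.coe_toNNReal _ h2, smul_neg, sub_neg_eq_add]
      congr 2
      ring

lemma slice_empty (K : ConvexBody E3) (s : ℝ) (hs : s ∉ Icc (-1 : ℝ) 1) :
    {y : E3 | (Fin.cons s y : Fin 4 → ℝ) ∈ Helper73.Twin.twin (K : Set E3)} = ∅ := by
  rw [Set.eq_empty_iff_forall_notMem]
  intro y hy
  rw [Set.mem_setOf_eq, Helper73.Twin.mem_twin K.convex K.nonempty] at hy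
  obtain ⟨t, ht, a, ha, b, hb, hv⟩ := hy
  obtain ⟨e1, e2⟩ := Fin.cons_inj.1 hv
  exact hs ⟨by have := ht.1; linarith, by have := ht.2; linarith⟩

lemma integral_poly (c b : ℝ) :
    ∫ s in (-1 : ℝ)..1, c * (((1 + s) / 2) ^ 3 + ((1 - s) / 2) ^ 3 +
      3 * b * ((1 + s) / 2 * ((1 - s) / 2))) = c * (1 + b) := by
  have h : ∀ s ∈ uIcc (-1 : ℝ) 1, HasDerivAt (fun s : ℝ => c * (((1 + 3 * b) / 4) * s +
      (1 - b) / 4 * s ^ 3)) (c * (((1 + s) / 2) ^ 3 + ((1 - s) / 2) ^ 3 +
      3 * b * ((1 + s) / 2 * ((1 - s) / 2)))) s := by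
    intro s _
    have h1 := ((hasDerivAt_id s).const_mul ((1 + 3 * b) / 4)).add
      ((hasDerivAt_pow 3 s).const_mul ((1 - b) / 4))
    have h2 := h1.const_mul c
    refine h2.congr_deriv ?_
    push_cast
    ring
  rw [intervalIntegral.integral_eq_sub_of_hasDerivAt h]
  · ring
  · exact (by fun_prop : Continuous fun s : ℝ => c * (((1 + s) / 2) ^ 3 + ((1 - s) / 2) ^ 3 +
      3 * b * ((1 + s) / 2 * ((1 - s) / 2)))).intervalIntegrable _ _

/-- **Part B.** -/
theorem part_B : Helper73.M3.S_B := by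
  intro K hc hv hi b a hb hba
  have hne : K.Nonempty := hi.mono interior_subset
  set KB : ConvexBody E3 := bd K hc hv hne with hKB
  have hKc : (KB : Set E3) = K := rfl
  have hfin : volume K ≠ ⊤ := hc.measure_lt_top.ne
  set k : ℝ := vl volume KB with hk
  have hkK : ENNReal.ofReal k = volume K := by
    rw [hk]
    unfold vl
    rw [hKc, ENNReal.ofReal_toReal hfin]
  have hk0 : 0 ≤ k := ENNReal.toReal_nonneg
  have hV : T volume (nb KB) KB KB ≤ b * k := by
    have h := mixed_le KB b.toNNReal a (by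
      intro x hx
      obtain ⟨z, hz, e⟩ := hba x hx
      exact ⟨z, hz, by rw [Real.coe_toNNReal _ hb]; exact e⟩)
    rwa [Real.coe_toNNReal _ hb] at h
  have hcomp : IsCompact (Helper73.Twin.twin K) := Helper73.Twin.twin_compact hc hv hne
  have hmeas : MeasurableSet (Helper73.Twin.twin K) := hcomp.measurableSet
  have hsl : ∀ s ∈ Icc (-1 : ℝ) 1,
      volume {y : E3 | (Fin.cons s y : Fin 4 → ℝ) ∈ Helper73.Twin.twin K} ≤
        ENNReal.ofReal (k * (((1 + s) / 2) ^ 3 + ((1 - s) / 2) ^ 3 +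
          3 * b * ((1 + s) / 2 * ((1 - s) / 2)))) := by
    intro s hs
    have h1 : 0 ≤ (1 + s) / 2 := by have := hs.1; linarith
    have h2 : 0 ≤ (1 - s) / 2 := by have := hs.2; linarith
    have e := slice_eq KB s hs
    rw [hKc] at e
    rw [e]
    set Z : ConvexBody E3 := ((1 + s) / 2).toNNReal • KB + ((1 - s) / 2).toNNReal • nb KB with hZ
    have hZf : volume (Z : Set E3) ≠ ⊤ := Z.isCompact.measure_lt_top.ne
    rw [← ENNReal.ofReal_toReal hZf]
    refine ENNReal.ofReal_le_ofReal ?_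
    have h3 : (volume (Z : Set E3)).toReal = vl volume Z := rfl
    rw [h3, hZ, vl_slice, Real.coe_toNNReal _ h1, Real.coe_toNNReal _ h2, ← hk]
    have h4 : (1 + s) / 2 + (1 - s) / 2 = 1 := by ring
    rw [h4]
    have h5 : 0 ≤ (1 + s) / 2 * ((1 - s) / 2) := mul_nonneg h1 h2
    nlinarith [mul_le_mul_of_nonneg_left hV h5]
  calc volume (Helper73.Twin.twin K)
      = ∫⁻ v, (Helper73.Twin.twin K).indicator (fun _ => (1 : ℝ≥0∞)) v := by
        rw [lintegral_indicator hmeas, setLIntegral_one]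
    _ = ∫⁻ s : ℝ, ∫⁻ y : E3,
          (Helper73.Twin.twin K).indicator (fun _ => (1 : ℝ≥0∞)) (Fin.cons s y) :=
        lintegral_cons' _ (measurable_const.indicator hmeas)
    _ = ∫⁻ s : ℝ, volume {y : E3 | (Fin.cons s y : Fin 4 → ℝ) ∈ Helper73.Twin.twin K} := by
        refine lintegral_congr fun s => ?_
        have hm : MeasurableSet {y : E3 | (Fin.cons s y : Fin 4 → ℝ) ∈ Helper73.Twin.twin K} :=
          hmeas.preimage ((Helper73.Twin.cons_cont.comp (Continuous.prodMk_right s)).measurable)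
        rw [← setLIntegral_one, ← lintegral_indicator hm]
        refine lintegral_congr fun y => ?_
        by_cases h : (Fin.cons s y : Fin 4 → ℝ) ∈ Helper73.Twin.twin K
        · rw [Set.indicator_of_mem h, Set.indicator_of_mem (by exact h)]
        · rw [Set.indicator_of_notMem h, Set.indicator_of_notMem (by exact h)]
    _ = ∫⁻ s in Icc (-1 : ℝ) 1,
          volume {y : E3 | (Fin.cons s y : Fin 4 → ℝ) ∈ Helper73.Twin.twin K} := by
        rw [← lintegral_indicator measurableSet_Icc]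
        refine lintegral_congr fun s => ?_
        by_cases h : s ∈ Icc (-1 : ℝ) 1
        · rw [Set.indicator_of_mem h]
        · rw [Set.indicator_of_notMem h]
          have e := slice_empty KB s h
          rw [hKc] at e
          rw [e, measure_empty]
    _ ≤ ∫⁻ s in Icc (-1 : ℝ) 1, ENNReal.ofReal (k * (((1 + s) / 2) ^ 3 + ((1 - s) / 2) ^ 3 +
          3 * b * ((1 + s) / 2 * ((1 - s) / 2)))) :=
        setLIntegral_mono' measurableSet_Icc hsl
    _ = ENNReal.ofReal (∫ s in Icc (-1 : ℝ) 1, k * (((1 + s) / 2) ^ 3 + ((1 - s) / 2) ^ 3 +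
          3 * b * ((1 + s) / 2 * ((1 - s) / 2)))) := by
        rw [ofReal_integral_eq_lintegral_ofReal]
        · exact (by fun_prop : Continuous fun s : ℝ => k * (((1 + s) / 2) ^ 3 +
            ((1 - s) / 2) ^ 3 + 3 * b * ((1 + s) / 2 * ((1 - s) / 2)))).continuousOn.integrableOn_compact
              isCompact_Icc
        · refine (ae_restrict_iff' measurableSet_Icc).2 (Filter.Eventually.of_forall fun s hs => ?_)
          have h1 : 0 ≤ (1 + s) / 2 := by have := hs.1; linarith
          have h2 : 0 ≤ (1 - s) / 2 := by have := hs.2; linarith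
          positivity
    _ = ENNReal.ofReal (k * (1 + b)) := by
        rw [← integral_poly k b, intervalIntegral.integral_of_le (by norm_num),
          integral_Icc_eq_integral_Ioc]
    _ = ENNReal.ofReal (1 + b) * volume K := by
        rw [← hkK, ← ENNReal.ofReal_mul (by linarith), mul_comm]

end Helper48.M3

end
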